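import Pool.Agent.TH931.LP.Stm

/-!
# LP931-C5: norm certificate of a product, base first factor (helper606)
-/

set_option autoImplicit false

open MeasureTheory Set
open scoped ENNReal Matrix

noncomputable section

namespace Pool.Agent.TH606.LP931

open Pool.Agent.TH931.LP

variable {n m : ℕ} {U V U' V' : Type}

theorem dot_append {n m : ℕ} (x1 y1 : Fin n → ℝ) (x2 y2 : Fin m → ℝ) :
    Fin.append x1 x2 ⬝ᵥ Fin.append y1 y2 = x1 ⬝ᵥ y1 + x2 ⬝ᵥ y2 := by
  simp [dotProduct, Fin.sum_univ_add]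

theorem append_dot {n m : ℕ} (x1 : Fin n → ℝ) (x2 : Fin m → ℝ) (b : Fin (n + m) → ℝ) :
    Fin.append x1 x2 ⬝ᵥ b = x1 ⬝ᵥ p1 b + x2 ⬝ᵥ p2 b := by
  simp [dotProduct, Fin.sum_univ_add, p1, p2]

theorem h_zero {F : Fr n U V} (hF : Good F) : F.h 0 = 0 := by
  have := hF.dhalf.eq 0
  simp only [dotProduct_zero] at this
  exact this.symm

theorem h_nonneg {F : Fr n U V} (hF : Good F) (y : Fin n → ℝ) : 0 ≤ F.h y := by
  by_cases hy : y = 0
  · rw [hy, h_zero hF]
  · exact (hF.dhalf.pos y hy).le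

theorem sum_mu [Fintype U] {F : Fr n U V} (hF : Good F) {α : U → V → ℝ}
    {mu : (Fin n → ℝ) → U → ℝ} (hk : Ker F α mu) (y : Fin n → ℝ) :
    ∑ a, mu y a = F.h y := by
  have h1 := congrArg (fun z => z ⬝ᵥ F.v (F.vt y)) (hk.bary y)
  simp only [sum_dotProduct, smul_dotProduct, smul_eq_mul] at h1
  have h2 : F.v (F.vt y) ⬝ᵥ y = F.h y := hF.dhalf.eq y
  rw [← h2, dotProduct_comm, ← h1]
  apply Finset.sum_congr rfl
  intro a _
  by_cases h : mu y a = 0
  · simp [h]
  · rw [hk.supp y a h, mul_one]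

theorem lint_exp (c M : ℝ) (hc : 0 < c) :
    ∫⁻ r in Ioi M, ENNReal.ofReal (Real.exp (-(c * r))) = ENNReal.ofReal (Real.exp (-(c * M)) / c) := by
  rw [← ofReal_integral_eq_lintegral_ofReal]
  · congr 1
    have h := integral_exp_mul_Ioi (a := -c) (by linarith) M
    have h2 : ∀ r : ℝ, Real.exp (-(c * r)) = Real.exp (-c * r) := fun r => by ring_nf
    simp only [h2]
    rw [h]
    field_simp
  · have h := integrableOn_exp_mul_Ioi (a := -c) (by linarith) M
    refine h.congr ?_
    filter_upwards with r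
    ring_nf
  · filter_upwards with r
    exact (Real.exp_pos _).le

theorem lint_smul {n : ℕ} (s : ℝ) (hs : 0 < s) (f : (Fin n → ℝ) → ℝ≥0∞) :
    ∫⁻ z, f (s • z) = ENNReal.ofReal ((s ^ n)⁻¹) * ∫⁻ z, f z := by
  have h1 := Measure.map_addHaar_smul (volume : Measure (Fin n → ℝ)) hs.ne'
  have h2 : ∫⁻ z, f z ∂(Measure.map (s • · : (Fin n → ℝ) → Fin n → ℝ) volume) =
      ∫⁻ z, f (s • z) := by
    have := (Homeomorph.smulOfNeZero (α := Fin n → ℝ) s hs.ne').toMeasurableEquiv.measurableEmbedding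
    exact this.lintegral_map f
  rw [← h2, h1, lintegral_smul_measure]
  simp [abs_of_pos hs, smul_eq_mul]

theorem zbase (h1 : S_app) : S_zbase := by
  intro n m U V U' V' _ _ _ _ F G α' mu' LQ' Y' qa' lam LZ Z g hF hG hk hq hz b hb hbY hbZ τ
  have hU : Nonempty U := ⟨F.ft 0⟩
  have hU' : Nonempty U' := ⟨G.ft 0⟩
  set s : ℝ := 1 - G.h (p2 b) with hs
  have hs0 : 0 < s := by
    have := h_nonneg hF (p1 b)
    linarith
  set f1 : (Fin n → ℝ) → ℝ := fun z => ⨆ a, (F.u a ⬝ᵥ z - τ (Sum.inl a)) with hf1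
  set f2 : (Fin m → ℝ) → ℝ := fun z => ⨆ a, (G.u a ⬝ᵥ z - τ (Sum.inr a)) with hf2
  have mdot : ∀ {k : ℕ} (w : Fin k → ℝ), Measurable fun z : Fin k → ℝ => w ⬝ᵥ z := by
    intro k w
    exact (continuous_const.dotProduct continuous_id).measurable
  have mdot' : ∀ {k : ℕ} (w : Fin k → ℝ), Measurable fun z : Fin k → ℝ => z ⬝ᵥ w := by
    intro k w
    exact (continuous_id.dotProduct continuous_const).measurable
  have mf1 : Measurable f1 := Measurable.iSup fun a => (mdot (F.u a)).sub_const _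
  have mf2 : Measurable f2 := Measurable.iSup fun a => (mdot (G.u a)).sub_const _
  have bdd1 : ∀ z, BddAbove (range fun a => F.u a ⬝ᵥ z - τ (Sum.inl a)) :=
    fun z => (finite_range _).bddAbove
  have bdd2 : ∀ z, BddAbove (range fun a => G.u a ⬝ᵥ z - τ (Sum.inr a)) :=
    fun z => (finite_range _).bddAbove
  -- the supremum
  have hsup : ∀ z1 z2, max (f1 z1) (f2 z2) ≤
      ⨆ a, ((F.prod G).u a ⬝ᵥ Fin.append z1 z2 - τ a) := by
    intro z1 z2
    have hbd : BddAbove (range fun a => (F.prod G).u a ⬝ᵥ Fin.append z1 z2 - τ a) :=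
      (finite_range _).bddAbove
    apply max_le
    · apply ciSup_le
      intro a
      refine le_trans (le_of_eq ?_) (le_ciSup hbd (Sum.inl a))
      simp [Fr.prod, dot_append]
    · apply ciSup_le
      intro a
      refine le_trans (le_of_eq ?_) (le_ciSup hbd (Sum.inr a))
      simp [Fr.prod, dot_append]
  obtain ⟨A', hA'⟩ : ∃ A' : ℝ, A' = ∑ a', mu' (p2 b) a' * τ (Sum.inr a') + LQ' (p2 b) := ⟨_, rfl⟩
  -- inner integral
  have hin : ∀ r : ℝ, ∫⁻ z2, (if f2 z2 < r then ENNReal.ofReal (Real.exp (z2 ⬝ᵥ p2 b)) else 0) ≤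
      ENNReal.ofReal (Real.exp ((1 - s) * r + A')) := by
    intro r
    have h2 := hq.cert (p2 b) hbY (fun a => r + τ (Sum.inr a))
    have h3 : ∑ a, mu' (p2 b) a * (r + τ (Sum.inr a)) + LQ' (p2 b) = (1 - s) * r + A' := by
      have := sum_mu hG hk (p2 b)
      simp only [mul_add, Finset.sum_add_distrib, ← Finset.sum_mul, this]
      rw [hA', hs]
      ring
    rw [h3] at h2
    refine le_trans ?_ h2
    have hms : MeasurableSet {z2 : Fin m → ℝ | f2 z2 < r} := measurableSet_lt mf2 measurable_const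
    have h4 : ∀ z2, (if f2 z2 < r then ENNReal.ofReal (Real.exp (z2 ⬝ᵥ p2 b)) else 0) =
        ({z2 : Fin m → ℝ | f2 z2 < r}).indicator
          (fun z2 => ENNReal.ofReal (Real.exp (z2 ⬝ᵥ p2 b))) z2 := by
      intro z2
      simp [indicator]
    simp only [h4]
    rw [lintegral_indicator hms]
    apply lintegral_mono_set
    intro z2 hz2 a _
    have := (le_ciSup (bdd2 z2) a).trans_lt hz2
    beta_reduce at this ⊢
    linarith
  -- first step
  have hm1 : Measurable fun z : Fin (n + m) → ℝ =>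
      ENNReal.ofReal (Real.exp (z ⬝ᵥ b - ⨆ a, ((F.prod G).u a ⬝ᵥ z - τ a))) := by
    apply ENNReal.measurable_ofReal.comp
    apply Real.measurable_exp.comp
    exact (mdot' b).sub (Measurable.iSup fun a => (mdot _).sub_const _)
  rw [h1 n m _ hm1]
  have hz1 : ∀ z1 : Fin n → ℝ, ∫⁻ z2 : Fin m → ℝ, ENNReal.ofReal (Real.exp (Fin.append z1 z2 ⬝ᵥ b -
      ⨆ a, ((F.prod G).u a ⬝ᵥ Fin.append z1 z2 - τ a))) ≤
      ENNReal.ofReal (Real.exp (z1 ⬝ᵥ p1 b - s * f1 z1) * (Real.exp A' / s)) := by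
    intro z1
    calc ∫⁻ z2 : Fin m → ℝ, ENNReal.ofReal (Real.exp (Fin.append z1 z2 ⬝ᵥ b -
          ⨆ a, ((F.prod G).u a ⬝ᵥ Fin.append z1 z2 - τ a)))
        ≤ ∫⁻ z2 : Fin m → ℝ, ENNReal.ofReal (Real.exp (z1 ⬝ᵥ p1 b)) *
          ∫⁻ r in Ioi (f1 z1), ENNReal.ofReal (Real.exp (-r)) *
            (if f2 z2 < r then ENNReal.ofReal (Real.exp (z2 ⬝ᵥ p2 b)) else 0) := by
          apply lintegral_mono
          intro z2
          simp only
          have e1 : ∫⁻ r in Ioi (f1 z1), ENNReal.ofReal (Real.exp (-r)) *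
            (if f2 z2 < r then ENNReal.ofReal (Real.exp (z2 ⬝ᵥ p2 b)) else 0) =
            ENNReal.ofReal (Real.exp (-max (f1 z1) (f2 z2)) * Real.exp (z2 ⬝ᵥ p2 b)) := by
            have e2 : ∀ r, ENNReal.ofReal (Real.exp (-r)) *
              (if f2 z2 < r then ENNReal.ofReal (Real.exp (z2 ⬝ᵥ p2 b)) else 0) =
              (Ioi (f2 z2)).indicator (fun r => ENNReal.ofReal (Real.exp (-r)) *
                ENNReal.ofReal (Real.exp (z2 ⬝ᵥ p2 b))) r := by
              intro r
              by_cases h : f2 z2 < r <;> simp [h]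
            simp only [e2]
            rw [setLIntegral_indicator measurableSet_Ioi, Ioi_inter_Ioi,
              lintegral_mul_const _ (by fun_prop)]
            have e3 := lint_exp 1 (max (f2 z2) (f1 z1)) one_pos
            simp only [one_mul, div_one] at e3
            rw [show f2 z2 ⊔ f1 z1 = max (f2 z2) (f1 z1) from rfl, e3,
              ← ENNReal.ofReal_mul (Real.exp_pos _).le, max_comm]
          rw [e1, ← ENNReal.ofReal_mul (Real.exp_pos _).le, ← Real.exp_add, ← Real.exp_add]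
          apply ENNReal.ofReal_le_ofReal
          apply Real.exp_le_exp.2
          rw [append_dot]
          have := hsup z1 z2
          linarith
      _ = ENNReal.ofReal (Real.exp (z1 ⬝ᵥ p1 b)) * ∫⁻ r in Ioi (f1 z1),
          ∫⁻ z2 : Fin m → ℝ, ENNReal.ofReal (Real.exp (-r)) *
            (if f2 z2 < r then ENNReal.ofReal (Real.exp (z2 ⬝ᵥ p2 b)) else 0) := by
          have hmm : Measurable fun q : (Fin m → ℝ) × ℝ => ENNReal.ofReal (Real.exp (-q.2)) *
            (if f2 q.1 < q.2 then ENNReal.ofReal (Real.exp (q.1 ⬝ᵥ p2 b)) else 0) := by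
            apply Measurable.mul
            · fun_prop
            · apply Measurable.ite
              · exact measurableSet_lt (mf2.comp measurable_fst) measurable_snd
              · apply ENNReal.measurable_ofReal.comp
                apply Real.measurable_exp.comp
                exact (mdot' _).comp measurable_fst
              · exact measurable_const
          rw [lintegral_const_mul _ (hmm.lintegral_prod_right')]
          congr 1
          exact lintegral_lintegral_swap hmm.aemeasurable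
      _ ≤ ENNReal.ofReal (Real.exp (z1 ⬝ᵥ p1 b)) * ∫⁻ r in Ioi (f1 z1),
          ENNReal.ofReal (Real.exp A') * ENNReal.ofReal (Real.exp (-(s * r))) := by
          gcongr with r
          rw [lintegral_const_mul']
          · calc ENNReal.ofReal (Real.exp (-r)) * ∫⁻ z2 : Fin m → ℝ,
                  (if f2 z2 < r then ENNReal.ofReal (Real.exp (z2 ⬝ᵥ p2 b)) else 0)
                ≤ ENNReal.ofReal (Real.exp (-r)) *
                  ENNReal.ofReal (Real.exp ((1 - s) * r + A')) := by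
                  gcongr
                  exact hin r
              _ = _ := by
                  rw [← ENNReal.ofReal_mul (Real.exp_pos _).le,
                    ← ENNReal.ofReal_mul (Real.exp_pos _).le, ← Real.exp_add, ← Real.exp_add]
                  ring_nf
          · exact ENNReal.ofReal_ne_top
      _ = ENNReal.ofReal (Real.exp (z1 ⬝ᵥ p1 b - s * f1 z1) * (Real.exp A' / s)) := by
          rw [lintegral_const_mul _ (by fun_prop), lint_exp s _ hs0,
            ← ENNReal.ofReal_mul (Real.exp_pos _).le, ← ENNReal.ofReal_mul (Real.exp_pos _).le]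
          congr 1
          rw [sub_eq_add_neg, Real.exp_add]
          ring
  refine le_trans (lintegral_mono hz1) ?_
  have hsplit : ∀ z1 : Fin n → ℝ,
      ENNReal.ofReal (Real.exp (z1 ⬝ᵥ p1 b - s * f1 z1) * (Real.exp A' / s)) =
      ENNReal.ofReal (Real.exp A' / s) * (fun z : Fin n → ℝ =>
        ENNReal.ofReal (Real.exp (z ⬝ᵥ (s⁻¹ • p1 b) -
          ⨆ a, (F.u a ⬝ᵥ z - s * τ (Sum.inl a))))) (s • z1) := by
    intro z1
    have e1 : (s • z1) ⬝ᵥ (s⁻¹ • p1 b) = z1 ⬝ᵥ p1 b := by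
      rw [smul_dotProduct, dotProduct_smul, smul_eq_mul, smul_eq_mul, ← mul_assoc,
        mul_inv_cancel₀ hs0.ne', one_mul]
    have e2 : (⨆ a, (F.u a ⬝ᵥ (s • z1) - s * τ (Sum.inl a))) = s * f1 z1 := by
      rw [hf1]
      simp only
      rw [Real.mul_iSup_of_nonneg hs0.le]
      congr 1
      funext a
      rw [dotProduct_smul, smul_eq_mul]
      ring
    simp only
    rw [e1, e2, mul_comm, ENNReal.ofReal_mul (by positivity)]
  simp only [hsplit]
  rw [lintegral_const_mul' _ _ ENNReal.ofReal_ne_top,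
    lint_smul s hs0 (fun z : Fin n → ℝ => ENNReal.ofReal (Real.exp (z ⬝ᵥ (s⁻¹ • p1 b) -
          ⨆ a, (F.u a ⬝ᵥ z - s * τ (Sum.inl a)))))]
  have hc := hz.cert (s⁻¹ • p1 b) hbZ (fun a => s * τ (Sum.inl a))
  calc ENNReal.ofReal (Real.exp A' / s) * (ENNReal.ofReal (s ^ n)⁻¹ *
        ∫⁻ z : Fin n → ℝ, ENNReal.ofReal (Real.exp (z ⬝ᵥ (s⁻¹ • p1 b) -
          ⨆ a, (F.u a ⬝ᵥ z - s * τ (Sum.inl a)))))
      ≤ ENNReal.ofReal (Real.exp A' / s) * (ENNReal.ofReal (s ^ n)⁻¹ *
        ENNReal.ofReal (Real.exp (∑ a, lam (s⁻¹ • p1 b) a * (s * τ (Sum.inl a)) +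
          LZ (s⁻¹ • p1 b)))) := by
        gcongr
    _ = _ := by
        rw [← ENNReal.ofReal_mul (by positivity), ← ENNReal.ofReal_mul (by positivity)]
        congr 1
        have e3 : ∑ a, s * lam (s⁻¹ • p1 b) a * τ (Sum.inl a) =
            ∑ a, lam (s⁻¹ • p1 b) a * (s * τ (Sum.inl a)) :=
          Finset.sum_congr rfl fun a _ => by ring
        rw [e3]
        have e4 : ∑ a, lam (s⁻¹ • p1 b) a * (s * τ (Sum.inl a)) +
            ∑ a', mu' (p2 b) a' * τ (Sum.inr a') + LZA G LQ' LZ b =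
            A' + (-(n + 1) * Real.log s) + (∑ a, lam (s⁻¹ • p1 b) a * (s * τ (Sum.inl a)) +
          LZ (s⁻¹ • p1 b)) := by
          rw [LZA, hA']
          ring
        rw [e4, Real.exp_add _ (∑ a, lam (s⁻¹ • p1 b) a * (s * τ (Sum.inl a)) +
          LZ (s⁻¹ • p1 b)), Real.exp_add A']
        have e5 : Real.exp (-(n + 1) * Real.log s) = (s ^ n)⁻¹ * s⁻¹ := by
          have : -((n : ℝ) + 1) * Real.log s = -(n * Real.log s) + -Real.log s := by ring
          rw [this, Real.exp_add, Real.exp_neg, Real.exp_neg, Real.exp_log hs0, mul_comm (n : ℝ),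
            ← Real.rpow_def_of_pos hs0, Real.rpow_natCast]
        rw [e5]
        ring

end Pool.Agent.TH606.LP931
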